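import Pool.Agent.Helper71.BM.Basic

/-!
# Existence of small hubs
-/

set_option autoImplicit false

namespace Pool.Agent.Helper71.BM

open Finset ErdPos

lemma hub_mem_wset {V : Type} [DecidableEq V] (R Q : ℕ → ℕ → List V) (r j0 ℓ : ℕ) (v : V) :
    v ∈ wset R Q r j0 ℓ ↔ ∃ j < ℓ, (∃ s < r, v ∈ R (s + 1) (j0 + j)) ∨
      ∃ s < r - 1, v ∈ Q (s + 1) (j0 + j) := by
  unfold wset
  simp only [mem_biUnion, mem_range, mem_union, List.mem_toFinset]

lemma hub_wset_rev {V : Type} [DecidableEq V] (R Q : ℕ → ℕ → List V) (r j0 ℓ d : ℕ)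
    (hd : j0 + ℓ ≤ d) :
    wset (fun s j => (R s (d - 1 - j)).reverse) (fun s j => Q s (d - 1 - j)) r (d - (j0 + ℓ)) ℓ
      = wset R Q r j0 ℓ := by
  ext v
  rw [hub_mem_wset, hub_mem_wset]
  constructor
  · rintro ⟨j, hj, h⟩
    have e : d - 1 - (d - (j0 + ℓ) + j) = j0 + (ℓ - 1 - j) := by omega
    refine ⟨ℓ - 1 - j, by omega, ?_⟩
    rcases h with ⟨s, hs, hv⟩ | ⟨s, hs, hv⟩
    · left
      refine ⟨s, hs, ?_⟩
      have hv' : v ∈ (R (s + 1) (d - 1 - (d - (j0 + ℓ) + j))).reverse := hv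
      rw [List.mem_reverse, e] at hv'
      exact hv'
    · right
      refine ⟨s, hs, ?_⟩
      have hv' : v ∈ Q (s + 1) (d - 1 - (d - (j0 + ℓ) + j)) := hv
      rw [e] at hv'
      exact hv'
  · rintro ⟨j, hj, h⟩
    have e : d - 1 - (d - (j0 + ℓ) + (ℓ - 1 - j)) = j0 + j := by omega
    refine ⟨ℓ - 1 - j, by omega, ?_⟩
    rcases h with ⟨s, hs, hv⟩ | ⟨s, hs, hv⟩
    · left
      refine ⟨s, hs, ?_⟩
      show v ∈ (R (s + 1) (d - 1 - (d - (j0 + ℓ) + (ℓ - 1 - j)))).reverse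
      rw [List.mem_reverse, e]
      exact hv
    · right
      refine ⟨s, hs, ?_⟩
      show v ∈ Q (s + 1) (d - 1 - (d - (j0 + ℓ) + (ℓ - 1 - j)))
      rw [e]
      exact hv

lemma hub_card {V : Type} [DecidableEq V] (R Q : ℕ → ℕ → List V) (r j0 ℓ γ : ℕ)
    (hR : ∀ j < ℓ, ∀ s < r, (R (s + 1) (j0 + j)).length ≤ γ)
    (hQ : ∀ j < ℓ, ∀ s < r - 1, (Q (s + 1) (j0 + j)).length ≤ γ) :
    (wset R Q r j0 ℓ).card ≤ ℓ * (2 * r * γ) := by
  unfold wset
  refine le_trans (card_biUnion_le_card_mul _ _ (2 * r * γ) ?_) (by rw [card_range])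
  intro j hj
  rw [mem_range] at hj
  refine le_trans (card_union_le _ _) ?_
  have h1 : ((range r).biUnion (fun s => (R (s + 1) (j0 + j)).toFinset)).card ≤ r * γ := by
    refine le_trans (card_biUnion_le_card_mul _ _ γ ?_) (by rw [card_range])
    intro s hs
    exact le_trans (List.toFinset_card_le _) (hR j hj s (mem_range.1 hs))
  have h2 : ((range (r - 1)).biUnion (fun s => (Q (s + 1) (j0 + j)).toFinset)).card
      ≤ (r - 1) * γ := by
    refine le_trans (card_biUnion_le_card_mul _ _ γ ?_) (by rw [card_range])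
    intro s hs
    exact le_trans (List.toFinset_card_le _) (hQ j hj s (mem_range.1 hs))
  have h3 : (r - 1) * γ ≤ r * γ := Nat.mul_le_mul_right _ (Nat.sub_le _ _)
  have h4 : 2 * r * γ = r * γ + r * γ := by ring
  omega

lemma hub_sel (n D0 ℓ : ℕ) (hv : ℕ → Prop) (d : ℕ) (hd : d = (ℓ + 1) * (n + D0) + 2)
    (h : ∀ J : Finset ℕ, (∀ j ∈ J, j < d ∧ hv j) → J.card < D0) :
    ∃ J : ℕ → ℕ, (∀ b < n, 1 ≤ J b ∧ J b + ℓ < d ∧ ∀ j < ℓ, ¬ hv (J b + j)) ∧
      ∀ b b', b < b' → b' < n → J b + ℓ + 1 ≤ J b' := by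
  classical
  obtain ⟨L, hL⟩ : ∃ L, L = (range (n + D0)).filter (fun b => ∀ j < ℓ, ¬ hv (1 + (ℓ + 1) * b + j)) :=
    ⟨_, rfl⟩
  have hup : ∀ b, b < n + D0 → (ℓ + 1) * b + (ℓ + 1) + 2 ≤ d := by
    intro b hb
    rw [hd]
    have : (ℓ + 1) * (b + 1) ≤ (ℓ + 1) * (n + D0) := Nat.mul_le_mul_left _ hb
    rw [Nat.mul_add, Nat.mul_one] at this
    omega
  have hLc : n ≤ L.card := by
    have h1 : ((range (n + D0)).filter (fun b => ¬ ∀ j < ℓ, ¬ hv (1 + (ℓ + 1) * b + j))).card < D0 := by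
      have hch : ∀ b, ∃ j, (¬ ∀ j < ℓ, ¬ hv (1 + (ℓ + 1) * b + j)) →
          j < ℓ ∧ hv (1 + (ℓ + 1) * b + j) := by
        intro b
        by_cases hb : ∀ j < ℓ, ¬ hv (1 + (ℓ + 1) * b + j)
        · exact ⟨0, fun h => absurd hb h⟩
        · have hb' := hb
          push Not at hb'
          obtain ⟨j, hj1, hj2⟩ := hb'
          exact ⟨j, fun _ => ⟨hj1, hj2⟩⟩
      choose f hf using hch
      have e1 := h (((range (n + D0)).filter
        (fun b => ¬ ∀ j < ℓ, ¬ hv (1 + (ℓ + 1) * b + j))).image (fun b => 1 + (ℓ + 1) * b + f b)) (by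
          intro j hj
          rw [mem_image] at hj
          obtain ⟨b, hb, rfl⟩ := hj
          rw [mem_filter, mem_range] at hb
          have h2 := hf b hb.2
          have h3 := hup b hb.1
          exact ⟨by omega, h2.2⟩)
      rw [card_image_of_injOn] at e1
      · exact e1
      · intro b hb b' hb' hbb'
        rw [mem_coe, mem_filter] at hb hb'
        have h2 := hf b hb.2
        have h3 := hf b' hb'.2
        have h4 : 1 + (ℓ + 1) * b + f b = 1 + (ℓ + 1) * b' + f b' := hbb'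
        have h5 : (ℓ + 1) * b + f b = (ℓ + 1) * b' + f b' := by omega
        have h6 := congrArg (fun x => x / (ℓ + 1)) h5
        rw [Nat.mul_add_div (by omega), Nat.mul_add_div (by omega),
          Nat.div_eq_of_lt (by omega), Nat.div_eq_of_lt (by omega)] at h6
        omega
    have h2 := card_filter_add_card_filter_not (s := range (n + D0))
      (fun b => ∀ j < ℓ, ¬ hv (1 + (ℓ + 1) * b + j))
    rw [card_range, ← hL] at h2
    omega
  obtain ⟨L', hL', hL'c⟩ := exists_subset_card_eq hLc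
  have hmem : ∀ (b : ℕ) (hb : b < n), L'.orderEmbOfFin hL'c ⟨b, hb⟩ < n + D0 ∧
      ∀ j < ℓ, ¬ hv (1 + (ℓ + 1) * (L'.orderEmbOfFin hL'c ⟨b, hb⟩) + j) := by
    intro b hb
    have h1 := hL' (L'.orderEmbOfFin_mem hL'c ⟨b, hb⟩)
    rw [hL, mem_filter, mem_range] at h1
    exact h1
  refine ⟨fun b => if hb : b < n then 1 + (ℓ + 1) * (L'.orderEmbOfFin hL'c ⟨b, hb⟩) else 0, ?_, ?_⟩
  · intro b hb
    simp only [dif_pos hb]
    obtain ⟨h1, h2⟩ := hmem b hb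
    have h3 := hup _ h1
    exact ⟨by omega, by omega, h2⟩
  · intro b b' hbb' hb'
    have hb : b < n := by omega
    simp only [dif_pos hb, dif_pos hb']
    have h1 : L'.orderEmbOfFin hL'c ⟨b, hb⟩ < L'.orderEmbOfFin hL'c ⟨b', hb'⟩ :=
      (L'.orderEmbOfFin hL'c).strictMono hbb'
    have h2 : (ℓ + 1) * (L'.orderEmbOfFin hL'c ⟨b, hb⟩ + 1) ≤
        (ℓ + 1) * (L'.orderEmbOfFin hL'c ⟨b', hb'⟩) := Nat.mul_le_mul_left _ h1
    rw [Nat.mul_add, Nat.mul_one] at h2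
    omega

theorem st_HUB (h1 : ST_WEB) (h2 : ST_LAD) (h3 : ST_HEAVY) (h4 : ST_LNKS) (h5 : ST_REV)
    (h6 : ST_BLK) (h7 : ST_HAVC) : ST_HUB := by
  intro N c
  obtain ⟨r, hr⟩ : ∃ r, r = 4 * N + 1 := ⟨_, rfl⟩
  obtain ⟨ℓ, hℓ⟩ : ∃ ℓ, ℓ = r ^ 3 + r := ⟨_, rfl⟩
  obtain ⟨M, hM⟩ : ∃ M, M = 4 * (r * ℓ) * c := ⟨_, rfl⟩
  obtain ⟨D0, hD0⟩ := h3 (r + 1) M
  obtain ⟨d', hd'⟩ : ∃ d', d' = (ℓ + 1) * ((4 * N + 2) + D0) + 2 := ⟨_, rfl⟩
  obtain ⟨h, d, hh, hd, hLAD⟩ := h2 (r + 1) d' (by omega) (by omega)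
  obtain ⟨K1, hK1⟩ := h1 h d (2 * N) hh hd
  refine ⟨r, K1 + 4 * (r * ℓ) + 2 * N, ?_⟩
  intro V _ _ G k w K hk3 hkw hK0w hK hnu hhit
  have hr1 : 1 ≤ r := by omega
  have hℓ1 : 1 ≤ ℓ := by
    rw [hℓ]
    exact le_trans hr1 (Nat.le_add_left _ _)
  have hrl : 1 ≤ r * ℓ := Nat.mul_pos hr1 hℓ1
  have hHav := h7 V G k K hnu hhit
  obtain ⟨R0, U0, hWeb, hCtl⟩ := hK1 V G (FL G k) (hHav.mono (by omega))
  obtain ⟨R, U, Q, hLad, hCtl'⟩ := hLAD V G R0 U0 hWeb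
  have hCtl2 := hCtl' (FL G k) (2 * N) (2 * N + 1) hCtl
  -- the threshold
  obtain ⟨γ, hγ⟩ : ∃ γ, γ = w / (2 * (r * ℓ)) := ⟨_, rfl⟩
  have hγ2 : 2 ≤ γ := by
    rw [hγ, Nat.le_div_iff_mul_le (by omega)]
    omega
  have hγw : γ * (2 * (r * ℓ)) ≤ w := by
    rw [hγ]
    exact Nat.div_mul_le_self _ _
  have hwγ : w ≤ 4 * (r * ℓ) * γ := by
    have e1 : w < 2 * (r * ℓ) * (w / (2 * (r * ℓ)) + 1) := Nat.lt_mul_div_succ w (by omega)
    rw [← hγ] at e1
    nlinarith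
  have hMγ : k ≤ M * γ := by
    refine le_trans hkw ?_
    rw [hM]
    calc c * w ≤ c * (4 * (r * ℓ) * γ) := Nat.mul_le_mul_left _ hwγ
      _ = 4 * (r * ℓ) * c * γ := by ring
  -- heavy columns
  have hheavy : ∀ J : Finset ℕ, (∀ j ∈ J, j < d' ∧ ∃ s, 1 ≤ s ∧ s < r + 1 ∧
      (γ ≤ (R s j).length ∨ (s + 1 < r + 1 ∧ γ ≤ (Q s j).length))) → J.card < D0 := by
    intro J hJ
    by_contra hcon
    push Not at hcon
    obtain ⟨z, z', hz, hz', hlz, hlz', hdj⟩ := hD0 V G d' γ R U Q hLad (by omega) (by omega) J hcon hJ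
    obtain ⟨x, hx⟩ := hnu _ _ (hz.FL (le_trans hMγ hlz)) (hz'.FL (le_trans hMγ hlz'))
    rw [mem_inter, List.mem_toFinset, List.mem_toFinset] at hx
    exact hdj hx.1 hx.2
  obtain ⟨J, hJ1, hJ2⟩ := hub_sel (4 * N + 2) D0 ℓ _ d' hd' hheavy
  have hJc : ∀ b < 4 * N + 2, (wset R Q r (J b) ℓ).card ≤ w := by
    intro b hb
    refine le_trans (hub_card R Q r (J b) ℓ γ ?_ ?_) ?_
    · intro j hj s hs
      have := (hJ1 b hb).2.2 j hj
      by_contra hcon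
      exact this ⟨s + 1, by omega, by omega, Or.inl (by omega)⟩
    · intro j hj s hs
      have := (hJ1 b hb).2.2 j hj
      by_contra hcon
      exact this ⟨s + 1, by omega, by omega, Or.inr ⟨by omega, by omega⟩⟩
    · calc ℓ * (2 * r * γ) = γ * (2 * (r * ℓ)) := by ring
        _ ≤ w := hγw
  obtain ⟨b, hb, hbl⟩ := h6 V G (FL G k) N r d' K w ℓ R U Q J hHav hLad hCtl2 (by omega) hℓ1 (by omega)
    (fun b hb => ⟨(hJ1 b hb).1, (hJ1 b hb).2.1, hJc b hb⟩) hJ2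
  have hj1 := (hJ1 b hb).1
  have hj2 := (hJ1 b hb).2.1
  rcases hbl with hleft | hright
  · -- the left side
    have hex : ∀ i, ∃ x, i < r → (R (i + 1) (J b - 1)).getLast? = some x := by
      intro i
      by_cases hi : i < r
      · have hne := hLad.web.ne (i + 1) (by omega) (J b - 1) (by omega)
        exact ⟨(R (i + 1) (J b - 1)).getLast hne, fun _ => List.getLast?_eq_some_getLast hne⟩
      · have hne := hLad.web.ne 0 (by omega) 0 (by omega)
        exact ⟨(R 0 0).head hne, fun h => absurd h hi⟩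
    choose t ht using hex
    obtain ⟨hinj, hout, hlnk⟩ := h4 V G r d' (J b) R U Q t hLad hj1 (by rw [← hℓ]; omega) ht
    rw [← hℓ] at hout hlnk
    refine ⟨wset R Q r (J b) ℓ, t, ⟨hinj, hout, hlnk, ?_⟩, hJc b hb⟩
    intro S hS
    obtain ⟨i, hi, x, hx, hxb⟩ := hleft S hS
    refine ⟨i, hi, ?_⟩
    rw [ht i hi] at hx
    rw [Option.some.inj hx]
    exact hxb
  · -- the right side
    have hLad' := h5 V G (r + 1) d' R U Q hLad
    have hex : ∀ i, ∃ x, i < r → (R (i + 1) (J b + ℓ)).head? = some x := by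
      intro i
      by_cases hi : i < r
      · have hne := hLad.web.ne (i + 1) (by omega) (J b + ℓ) (by omega)
        exact ⟨(R (i + 1) (J b + ℓ)).head hne, fun _ => List.head?_eq_some_head hne⟩
      · have hne := hLad.web.ne 0 (by omega) 0 (by omega)
        exact ⟨(R 0 0).head hne, fun h => absurd h hi⟩
    choose t ht using hex
    obtain ⟨hinj, hout, hlnk⟩ := h4 V G r d' (d' - (J b + ℓ)) _ _ _ t hLad' (by omega)
      (by rw [← hℓ]; omega) (by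
        intro i hi
        have e : d' - 1 - (d' - (J b + ℓ) - 1) = J b + ℓ := by omega
        show ((R (i + 1) (d' - 1 - (d' - (J b + ℓ) - 1))).reverse).getLast? = some (t i)
        rw [e, List.getLast?_reverse]
        exact ht i hi)
    rw [← hℓ, hub_wset_rev R Q r (J b) ℓ d' (by omega)] at hout hlnk
    refine ⟨wset R Q r (J b) ℓ, t, ⟨hinj, hout, hlnk, ?_⟩, hJc b hb⟩
    intro S hS
    obtain ⟨i, hi, x, hx, hxb⟩ := hright S hS
    refine ⟨i, hi, ?_⟩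
    rw [ht i hi] at hx
    rw [Option.some.inj hx]
    exact hxb

end Pool.Agent.Helper71.BM
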