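import Pool.Agent.Helper71.BM.Basic

/-!
# Splitting a connected graph of maximum degree three
-/

set_option autoImplicit false

namespace Pool.Agent.Helper71.BM

open Finset ErdPos

lemma split_count {V : Type} [Fintype V] [DecidableEq V] (H : SimpleGraph V) (B X : Finset V)
    (b : V) (hB : Conn H B) (hb : b ∈ B) (N : Finset V) (m c : ℕ)
    (hN : ∀ y ∈ B, H.Adj y b → y ∈ N) (hNc : N.card ≤ m)
    (h : ∀ D, IsComp H (B.erase b) D → (D ∩ X).card ≤ c) : (B ∩ X).card ≤ 1 + m * c := by
  classical
  have hex : ∀ y, ∃ D, (y ∈ B.erase b → IsComp H (B.erase b) D ∧ y ∈ D) ∧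
      (y ∉ B.erase b → D = ∅) := by
    intro y
    by_cases hy : y ∈ B.erase b
    · obtain ⟨D, hD⟩ := exists_comp (G := H) hy
      exact ⟨D, fun _ => hD, fun h => absurd hy h⟩
    · exact ⟨∅, fun h => absurd h hy, fun _ => rfl⟩
  choose f hf1 hf2 using hex
  have hsub : B ∩ X ⊆ {b} ∪ N.biUnion (fun y => f y ∩ X) := by
    intro v hv
    rw [mem_inter] at hv
    rw [mem_union, mem_singleton]
    by_cases hvb : v = b
    · exact Or.inl hvb
    · right
      obtain ⟨D, hD, hvD⟩ := exists_comp (G := H) (mem_erase.2 ⟨hvb, hv.1⟩)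
      obtain ⟨d, hd, hdb⟩ := IsComp.adj_erase hB hb hD
      have hdB : d ∈ B.erase b := hD.subset hd
      have hfd := hf1 d hdB
      have hDf : D = f d := hD.eq_of_mem hfd.1 hd hfd.2
      rw [mem_biUnion]
      exact ⟨d, hN d (mem_of_mem_erase hdB) hdb, mem_inter.2 ⟨hDf ▸ hvD, hv.2⟩⟩
  refine le_trans (card_le_card hsub) ?_
  refine le_trans (card_union_le _ _) ?_
  rw [card_singleton]
  apply Nat.add_le_add_left
  refine le_trans (card_biUnion_le_card_mul _ _ c ?_) (Nat.mul_le_mul_right _ hNc)
  intro y _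
  by_cases hy : y ∈ B.erase b
  · exact h _ (hf1 y hy).1
  · rw [hf2 y hy, empty_inter, card_empty]
    exact Nat.zero_le _

lemma split_one {V : Type} [Fintype V] [DecidableEq V] (H : SimpleGraph V) (A X : Finset V)
    (n : ℕ) (hn : 1 ≤ n) (hA : Conn H A) (hdeg : ∀ v ∈ A, (H.neighborSet v).ncard ≤ 3)
    (hX : 4 * n ≤ (A ∩ X).card) : ∃ B ⊆ A, Conn H B ∧ Conn H (A \ B) ∧ n ≤ (B ∩ X).card ∧
      (B ∩ X).card + 1 ≤ 2 * n := by
  classical
  obtain ⟨S, hS⟩ : ∃ S : Finset (Finset V), ∀ B, B ∈ S ↔ B ⊆ A ∧ Conn H B ∧ Conn H (A \ B) ∧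
      n ≤ (B ∩ X).card :=
    ⟨A.powerset.filter (fun B => Conn H B ∧ Conn H (A \ B) ∧ n ≤ (B ∩ X).card), fun B => by
      rw [mem_filter, mem_powerset]⟩
  -- degrees as finsets
  have hnb : ∀ v ∈ A, (univ.filter (fun y => H.Adj y v)).card ≤ 3 := by
    intro v hv
    refine le_trans ?_ (hdeg v hv)
    rw [← Set.ncard_coe_finset]
    apply Set.ncard_le_ncard _ (Set.toFinite _)
    intro y hy
    rw [mem_coe, mem_filter] at hy
    exact hy.2.symm
  have hSne : S.Nonempty := by
    obtain ⟨b, hb⟩ := hA.1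
    by_contra hcon
    rw [not_nonempty_iff_eq_empty] at hcon
    have h1 := split_count H A X b hA hb (univ.filter (fun y => H.Adj y b)) 3 (n - 1)
      (fun y _ hy => mem_filter.2 ⟨mem_univ _, hy⟩) (hnb b hb) (by
        intro D hD
        by_contra h2
        have h3 : D ∈ S := (hS D).2 ⟨hD.subset_erase, hD.conn, IsComp.conn_sdiff hA hb hD, by omega⟩
        rw [hcon] at h3
        exact notMem_empty _ h3)
    omega
  obtain ⟨B, hBS, hBmin⟩ := exists_min_image S card hSne
  obtain ⟨hBA, hBc, hABc, hBn⟩ := (hS B).1 hBS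
  refine ⟨B, hBA, hBc, hABc, hBn, ?_⟩
  -- an edge from `B` to the rest
  obtain ⟨b, hb, z, hz, hbz⟩ := hA.2 B hBA hBc.1 (fun h => by
    rw [h, sdiff_self] at hABc
    exact absurd hABc.1 (by simp))
  have hzB : z ∉ B := (mem_sdiff.1 hz).2
  have h1 := split_count H B X b hBc hb ((univ.filter (fun y => H.Adj y b)).erase z) 2 (n - 1)
    (fun y hy hyb => mem_erase.2 ⟨fun h => hzB (h ▸ hy), mem_filter.2 ⟨mem_univ _, hyb⟩⟩) (by
      have e1 : z ∈ univ.filter (fun y => H.Adj y b) := mem_filter.2 ⟨mem_univ _, hbz.symm⟩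
      have e2 := card_erase_of_mem e1
      have := hnb b (hBA hb)
      omega) (by
      intro D hD
      by_contra h2
      have hDB : D ⊆ B := hD.subset_erase
      have hAD : A \ D = (A \ B) ∪ (B \ D) := by
        ext v
        rw [mem_union, mem_sdiff, mem_sdiff, mem_sdiff]
        constructor
        · rintro ⟨h3, h4⟩
          by_cases h5 : v ∈ B
          · exact Or.inr ⟨h5, h4⟩
          · exact Or.inl ⟨h3, h5⟩
        · rintro (⟨h3, h4⟩ | ⟨h3, h4⟩)
          · exact ⟨h3, fun h => h4 (hDB h)⟩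
          · exact ⟨hBA h3, h4⟩
      have hconn : Conn H (A \ D) := by
        rw [hAD]
        refine hABc.union (IsComp.conn_sdiff hBc hb hD) (Or.inl ⟨z, hz, b, ?_, hbz.symm⟩)
        exact mem_sdiff.2 ⟨hb, hD.notMem_erase⟩
      have h3 := hBmin D ((hS D).2 ⟨hDB.trans hBA, hD.conn, hconn, by omega⟩)
      have h4 : D.card < B.card := by
        apply card_lt_card
        rw [ssubset_iff_of_subset hDB]
        exact ⟨b, hb, hD.notMem_erase⟩
      omega)
  omega

theorem st_SPLIT : ST_SPLIT := by
  intro V _ _ H A X n p hn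
  induction p generalizing A X with
  | zero =>
    intro _ _ _ _
    exact ⟨fun _ => ∅, fun i hi => absurd hi (by omega), fun i hi => absurd hi (by omega)⟩
  | succ p ih =>
    intro hA hXA hdeg hX
    have hAX : A ∩ X = X := inter_eq_right.2 hXA
    rcases Nat.eq_zero_or_pos p with hp | hp
    · subst hp
      refine ⟨fun _ => A, ?_, ?_⟩
      · intro i _
        refine ⟨subset_rfl, hA, ?_⟩
        rw [hAX]
        omega
      · intro i hi j hj hij
        omega
    · have h4 : 4 * n ≤ (A ∩ X).card := by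
        rw [hAX]
        refine le_trans ?_ hX
        nlinarith
      obtain ⟨B, hBA, hBc, hABc, hBn, hBn2⟩ := split_one H A X n hn hA hdeg h4
      obtain ⟨B', hB'1, hB'2⟩ := ih (A \ B) (X \ B) hABc (sdiff_subset_sdiff hXA subset_rfl)
        (fun v hv => hdeg v (mem_sdiff.1 hv).1) (by
          have h5 : (X \ B).card + (B ∩ X).card = X.card := by
            rw [inter_comm]
            exact card_sdiff_add_card_inter X B
          have h6 : 2 * n * (p + 1) = 2 * n * p + 2 * n := by ring
          omega)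
      refine ⟨fun i => if i = 0 then B else B' (i - 1), ?_, ?_⟩
      · intro i hi
        by_cases hi0 : i = 0
        · simp only [if_pos hi0]
          exact ⟨hBA, hBc, hBn⟩
        · simp only [if_neg hi0]
          obtain ⟨e1, e2, e3⟩ := hB'1 (i - 1) (by omega)
          refine ⟨e1.trans sdiff_subset, e2, le_trans e3 (card_le_card ?_)⟩
          exact inter_subset_inter_left sdiff_subset
      · have key : ∀ j, j ≠ 0 → j < p + 1 → Disjoint B (B' (j - 1)) := by
          intro j hj0 hj
          rw [disjoint_right]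
          intro v hv
          exact (mem_sdiff.1 ((hB'1 (j - 1) (by omega)).1 hv)).2
        intro i hi j hj hij
        by_cases hi0 : i = 0
        · by_cases hj0 : j = 0
          · omega
          · simp only [if_pos hi0, if_neg hj0]
            exact key j hj0 hj
        · by_cases hj0 : j = 0
          · simp only [if_neg hi0, if_pos hj0]
            exact (key i hi0 hi).symm
          · simp only [if_neg hi0, if_neg hj0]
            exact hB'2 _ (by omega) _ (by omega) (by omega)

end Pool.Agent.Helper71.BM
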